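import Pool.Agent.KS6_59.McL.Big

set_option autoImplicit false

namespace Pool.Agent.Results.MP_b93de1_al.NoLinearImage

universe v

open Pool.Agent.H64.McLain Pool.Agent.KS6_59.McL

/-- Every finitely generated subgroup is soluble. -/
def LocallySoluble (G : Type) [Group G] : Prop :=
  ∀ S : Finset G, Group.IsSolvable (Subgroup.closure (S : Set G))

/-- Over every reduced commutative ring `R` (for instance a field) and for every `n`, the only
homomorphism from `G` to `GL_n(R)` is the trivial one. -/
def NoLinearImage (G : Type) [Group G] : Prop :=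
  ∀ (R : Type v) [CommRing R] [IsReduced R] (n : ℕ)
    (ρ : G →* Matrix.GeneralLinearGroup (Fin n) R) (g : G), ρ g = 1

/-- The only homomorphism from `G` to a finite or soluble group is the trivial one. -/
def NoFiniteOrSolubleImage (G : Type) [Group G] : Prop :=
  ∀ (H : Type v) [Group H], Finite H ∨ Group.IsSolvable H → ∀ (φ : G →* H) (g : G), φ g = 1

theorem gl_trivial (R : Type v) [CommRing R] [IsReduced R] (n : ℕ)
    (ρ : Γ →* Matrix.GeneralLinearGroup (Fin n) R) (g : Γ) : ρ g = 1 := by
  apply Units.ext
  ext i j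
  rw [← sub_eq_zero]
  have hnil : ((ρ g : Matrix.GeneralLinearGroup (Fin n) R).1 i j -
      (1 : Matrix.GeneralLinearGroup (Fin n) R).1 i j) ∈ nilradical R := by
    rw [nilradical_eq_sInf, Ideal.mem_sInf]
    intro P hP
    have : P.IsPrime := hP
    let F := FractionRing (R ⧸ P)
    let f : R →+* F := (algebraMap (R ⧸ P) F).comp (Ideal.Quotient.mk P)
    let ρ' : Γ →* Module.End F (Fin n → F) :=
      ((Matrix.toLinAlgEquiv' (R := F) (n := Fin n)).toAlgHom.toRingHom.toMonoidHom.comp
        (Units.coeHom _)).comp ((Matrix.GeneralLinearGroup.map f).comp ρ)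
    have h1 := rep_trivial ρ' g
    have h2 : (Matrix.GeneralLinearGroup.map f (ρ g)).1 = (1 : Matrix (Fin n) (Fin n) F) := by
      apply (Matrix.toLinAlgEquiv' (R := F) (n := Fin n)).injective
      rw [map_one]
      exact h1
    have h3 := congrFun (congrFun h2 i) j
    have h4 : f ((ρ g).1 i j) = f ((1 : Matrix (Fin n) (Fin n) R) i j) := by
      rw [Matrix.one_apply, apply_ite f, map_one, map_zero, ← Matrix.one_apply]
      exact h3
    have h5 : Ideal.Quotient.mk P ((ρ g).1 i j) =
        Ideal.Quotient.mk P ((1 : Matrix (Fin n) (Fin n) R) i j) :=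
      IsFractionRing.injective (R ⧸ P) F h4
    exact Ideal.Quotient.eq.1 h5
  rwa [nilradical_eq_zero, Ideal.zero_eq_bot, Ideal.mem_bot] at hnil

theorem sol_trivial (H : Type v) [Group H] [Group.IsSolvable H] (φ : Γ →* H) (g : Γ) : φ g = 1 := by
  have hd : ∀ n, derivedSeries Γ n = ⊤ := by
    intro n
    induction n with
    | zero => rfl
    | succ n ih => rw [derivedSeries_succ, ih]; exact Γ_perfect
  obtain ⟨n, hn⟩ := Group.IsSolvable.solvable (G := H)
  have h1 := map_derivedSeries_le_derivedSeries φ n
  rw [hd n, hn] at h1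
  exact Subgroup.mem_bot.1 (h1 ⟨g, Subgroup.mem_top g, rfl⟩)

theorem fin_trivial (H : Type v) [Group H] [Finite H] (φ : Γ →* H) (g : Γ) : φ g = 1 := by
  classical
  have : Fintype H := Fintype.ofFinite H
  let ρH : H →* Module.End ℚ (H → ℚ) :=
    { toFun := fun h =>
        { toFun := fun f x => f (x * h)
          map_add' := fun _ _ => rfl
          map_smul' := fun _ _ => rfl }
      map_one' := by
        apply LinearMap.ext; intro f; funext x
        show f (x * 1) = f x
        rw [mul_one]
      map_mul' := fun h k => by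
        apply LinearMap.ext; intro f; funext x
        show f (x * (h * k)) = f (x * h * k)
        rw [mul_assoc] }
  have h1 : ρH (φ g) = 1 := rep_trivial (F := ℚ) (W := H → ℚ) (ρH.comp φ) g
  have h2 := congrFun (LinearMap.congr_fun h1 (Pi.single 1 1)) (φ g)⁻¹
  have h3 : (Pi.single 1 1 : H → ℚ) ((φ g)⁻¹ * φ g) = (Pi.single 1 1 : H → ℚ) (φ g)⁻¹ := h2
  rw [inv_mul_cancel, Pi.single_eq_same] at h3
  by_contra hne
  rw [Pi.single_eq_of_ne (by simpa using hne)] at h3
  exact one_ne_zero h3

/-- For every set `I` there is a locally soluble group `G` with a faithful 2-transitive action on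
a set containing a copy of `I` (so the examples are arbitrarily large) that has no nontrivial
homomorphism to `GL_n(R)` for any `n` and any reduced commutative ring `R`, nor to any finite
or soluble group. -/
theorem result (I : Type) : ∃ (G X : Type) (_ : Group G) (_ : MulAction G X),
    FaithfulSMul G X ∧ Infinite G ∧ Nonempty (I ↪ X) ∧
    MulAction.IsMultiplyPretransitive G X 2 ∧ LocallySoluble G ∧
    NoLinearImage.{v} G ∧ NoFiniteOrSolubleImage.{v} G := by
  classical
  let W := (I →₀ ℚ) × ℚ
  have hinj : Function.Injective (fun i : I => ((Finsupp.single i (1 : ℚ), 0) : W)) := fun i j h =>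
    Finsupp.single_left_injective one_ne_zero (congrArg Prod.fst h)
  refine ⟨G W, K W, inferInstance, inferInstance, inferInstance, inferInstance, ?_, two_trans,
    loc_solv, ?_, ?_⟩
  · exact ⟨⟨_, (IsFractionRing.injective (R W) (K W)).comp
      (single_inj.comp (f0_inj.comp hinj))⟩⟩
  · intro R _ _ n ρ g
    exact G_hom_trivial ρ (fun γ => gl_trivial R n (ρ.comp ss) γ) g
  · rintro H _ (hH | hH) φ g
    · exact G_hom_trivial φ (fun γ => fin_trivial H (φ.comp ss) γ) g
    · exact G_hom_trivial φ (fun γ => sol_trivial H (φ.comp ss) γ) g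

end Pool.Agent.Results.MP_b93de1_al.NoLinearImage
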